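import Pool.Agent.Helper578.JD.Final

/-!
Every computable ordinal is the ordinal of a proper jump degree of a completely decomposable group.
-/

namespace Pool.Agent.Results.MP_e2473a_lc.Full

open Pool.Agent.Helper578.JD Pool.Agent.Helper578.JD.Defs

/-- Check of the definition of the jump: it is many-one complete for the sets which are computably
enumerable relative to `A`, that is, the domains of the partial functions recursive in `A`. -/
theorem jump_is_complete {A S : Set ℕ} :
    (∃ f : ℕ →. ℕ, RecursiveIn {chi A} f ∧ ∀ n, (f n).Dom ↔ n ∈ S) ↔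
      ∃ g : ℕ → ℕ, Computable g ∧ ∀ n, n ∈ S ↔ g n ∈ jump A :=
  jump_complete

/-- Check of the definition of the hierarchy: its value at the least place. -/
theorem hierarchy_at_least {R : ℕ → ℕ → Prop} (hR : WellFounded R) (X : Set ℕ) {b : ℕ}
    (hb : ∀ c, ¬ R c b) : deg (H hR X b) = deg X :=
  deg_eq (H_least hR X hb).1 (H_least hR X hb).2

/-- Check of the definition of the hierarchy: its value at the successor `b` of `c`. -/
theorem hierarchy_at_successor {R : ℕ → ℕ → Prop} (hR : IsWellOrder ℕ R)
    (hc : ComputablePred fun p : ℕ × ℕ => R p.1 p.2) (X : Set ℕ) {b c : ℕ} (h : R c b)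
    (h' : ∀ d, R d b → d = c ∨ R d c) : deg (H hR.wf X b) = deg (jump (H hR.wf X c)) :=
  deg_eq (H_succ hR.wf hc (fun _ _ _ => trans_of R) X h h').1 (H_succ hR.wf hc (fun _ _ _ => trans_of R) X h h').2

/-- Check of the definition of the hierarchy: its value at the limit place `b`. -/
theorem hierarchy_at_limit {R : ℕ → ℕ → Prop} (hR : WellFounded R)
    (hc : ComputablePred fun p : ℕ × ℕ => R p.1 p.2) (X : Set ℕ) {b c : ℕ} (h : R c b)
    (h' : ∀ d, R d b → ∃ e, R d e ∧ R e b) :
    deg (H hR X b) = deg {n | R n.unpair.1 b ∧ n.unpair.2 ∈ H hR X n.unpair.1} :=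
  deg_eq (H_limit hR hc X h h').1 (H_limit hR hc X h h').2

/-- For every computable well-ordering `R` of the natural numbers and every `a`, there is a
completely decomposable group with a proper jump degree at `a`. -/
theorem result (R : ℕ → ℕ → Prop) (hR : IsWellOrder ℕ R)
    (hc : ComputablePred fun p : ℕ × ℕ => R p.1 p.2) (a : ℕ) :
    ∃ S : ℕ → AddSubgroup ℚ, ∃ d : TuringDegree,
      IsProperJumpDegree hR.wf a (DirectSum ℕ fun i => S i) d := by
  obtain ⟨S, h⟩ := main_degrees hR.wf hc (fun _ _ _ => trans_of R) a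
  exact ⟨S, _, h⟩

end Pool.Agent.Results.MP_e2473a_lc.Full
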